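import Mathlib

set_option autoImplicit false
open Filter Topology

namespace Pool.Agent.Results.MP_8dfbdc_an.Cone

/-- `M` is a `C¹` embedded submanifold of `ℝⁿ` near `p` -/
def C1At {n : ℕ} (M : Set (Fin n → ℝ)) (p : Fin n → ℝ) : Prop :=
  ∃ (ψ : OpenPartialHomeomorph (Fin n → ℝ) (Fin n → ℝ)) (k : ℕ), p ∈ ψ.source ∧
    ContDiffOn ℝ 1 ψ ψ.source ∧ ContDiffOn ℝ 1 ψ.symm ψ.target ∧
    ψ '' (ψ.source ∩ M) = ψ.target ∩ {x | ∀ i : Fin n, k ≤ i.val → x i = 0}

abbrev X := Fin 3 → ℝ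

noncomputable def g (x : X) : ℝ :=
  (x 2 + 51 / 500 * x 0 ^ 3) / (1 + (x 0 ^ 2 + x 1 ^ 2 + 2 * x 2 ^ 2))

noncomputable def f (x : X) : X := ![x 0, x 1, g x]

lemma key (x y z a b c : ℝ) (ha : |a| ≤ 1) (hb : |b| ≤ 1) (hc : |c| ≤ 1) :
    (c + 51 / 500 * (3 * x ^ 2 * a)) * (1 + (x ^ 2 + y ^ 2 + 2 * z ^ 2)) -
      (z + 51 / 500 * x ^ 3) * (2 * x * a + 2 * y * b + 4 * z * c) ≤
    (1 + (x ^ 2 + y ^ 2 + 2 * z ^ 2)) ^ 2 := by
  have h : ∀ u v t : ℝ, |t| ≤ 1 → 2 * u * v * t ≤ u ^ 2 + v ^ 2 ∧ -(u ^ 2 + v ^ 2) ≤ 2 * u * v * t :=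
    fun u v t ht => by
      rw [abs_le] at ht
      constructor <;>
      nlinarith [mul_nonneg (sub_nonneg.2 ht.2) (sq_nonneg (u + v)),
        mul_nonneg (sub_nonneg.2 ht.2) (sq_nonneg (u - v)),
        mul_nonneg (by linarith [ht.1] : 0 ≤ 1 + t) (sq_nonneg (u + v)),
        mul_nonneg (by linarith [ht.1] : 0 ≤ 1 + t) (sq_nonneg (u - v))]
  set Q := x ^ 2 + y ^ 2 + 2 * z ^ 2 with hQ
  have hx : 0 ≤ x ^ 2 := sq_nonneg x
  have hy : 0 ≤ y ^ 2 := sq_nonneg y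
  have hz : 0 ≤ z ^ 2 := sq_nonneg z
  have hxQ : x ^ 2 ≤ Q := by linarith
  have hQ0 : 0 ≤ Q := by linarith
  have ha' := abs_le.1 ha
  have hc' := abs_le.1 hc
  have h1 := (h (x / 2) (2 * z) a ha).2
  have h1' := (h x z a ha).2
  have h2 := (h y z b hb).2
  have h3 := (h x z c hc).2
  have h4 := (h x y b hb).2
  have q1 : x ^ 2 * a * Q ≤ Q ^ 2 := by nlinarith [mul_nonneg hx hQ0]
  have q2 : -(x ^ 2 * (x ^ 2 * a)) ≤ Q ^ 2 := by nlinarith [mul_nonneg hx hx]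
  have q3 : -(x ^ 2 * (2 * x * y * b)) ≤ Q ^ 2 := by nlinarith [mul_nonneg hx hz]
  have q4 : -(x ^ 2 * (2 * x * z * c)) ≤ Q ^ 2 := by nlinarith [mul_nonneg hx hz, mul_nonneg hx hy]
  have q5 : x ^ 2 * a ≤ x ^ 2 := by nlinarith
  have lin : c * (1 + Q - 4 * z ^ 2) + 153 / 500 * (x ^ 2 * a) - 2 * x * z * a - 2 * y * z * b ≤
      1 + 2 * Q := by
    rcases le_total 0 (1 + Q - 4 * z ^ 2) with h5 | h5
    · nlinarith [mul_nonneg h5 (sub_nonneg.2 hc'.2)]
    · nlinarith [mul_nonneg (neg_nonneg.2 h5) (by linarith [hc'.1] : 0 ≤ 1 + c)]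
  nlinarith [sq_nonneg Q]

lemma g_lip (p q : X) : |g p - g q| ≤ ‖p - q‖ := by
  rcases eq_or_ne p q with rfl | hpq
  · simp
  have hr : 0 < ‖p - q‖ := norm_pos_iff.2 (sub_ne_zero.2 hpq)
  set r := ‖p - q‖
  have hd : ∀ i, |(p i - q i) / r| ≤ 1 := fun i => by
    rw [abs_div, abs_of_pos hr, div_le_one hr]; exact norm_le_pi_norm (p - q) i
  set a := (p 0 - q 0) / r
  set b := (p 1 - q 1) / r
  set c := (p 2 - q 2) / r
  have L : ∀ u v t : ℝ, HasDerivAt (fun t : ℝ => u + v * t) v t := fun u v t => by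
    simpa using ((hasDerivAt_id' t).const_mul v).const_add u
  have := Convex.norm_image_sub_le_of_norm_hasDerivWithin_le (C := 1) (s := Set.univ)
    (f := fun t : ℝ => ((q 2 + c * t) + 51 / 500 * (q 0 + a * t) ^ 3) /
      (1 + ((q 0 + a * t) ^ 2 + (q 1 + b * t) ^ 2 + 2 * (q 2 + c * t) ^ 2)))
    (fun t _ => (((L (q 2) c t).fun_add (((L (q 0) a t).fun_pow 3).const_mul _)).fun_div
      (((((L (q 0) a t).fun_pow 2).fun_add ((L (q 1) b t).fun_pow 2)).fun_add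
        (((L (q 2) c t).fun_pow 2).const_mul 2)).const_add 1) (by positivity)).hasDerivWithinAt)
    (fun t _ => by
      have k1 := key (q 0 + a * t) (q 1 + b * t) (q 2 + c * t) a b c (hd 0) (hd 1) (hd 2)
      have k2 := key (q 0 + a * t) (q 1 + b * t) (q 2 + c * t) (-a) (-b) (-c)
        (by simpa using hd 0) (by simpa using hd 1) (by simpa using hd 2)
      rw [Real.norm_eq_abs, abs_div, abs_of_pos (a := _ ^ 2) (by positivity),
        div_le_one (by positivity), abs_le]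
      simp only [Nat.cast_ofNat, Nat.add_one_sub_one, pow_one]
      constructor <;> linarith)
    convex_univ (Set.mem_univ 0) (Set.mem_univ r)
  have e : ∀ i, q i + (p i - q i) / r * r = p i := fun i => by field_simp; ring
  simp only [a, b, c, e, mul_zero, add_zero, sub_zero, one_mul, Real.norm_eq_abs,
    abs_of_pos hr] at this
  exact this

def M : Set X := {x | x 2 * (x 0 ^ 2 + x 1 ^ 2 + 2 * x 2 ^ 2) = 51 / 500 * x 0 ^ 3}

lemma fix_eq : {x | f x = x} = M := by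
  ext x
  have : f x = x ↔ g x = x 2 := by
    constructor
    · intro h; simpa [f] using congrFun h 2
    · intro h; ext i; fin_cases i <;> simp [f, h]
  simp only [Set.mem_setOf_eq, this, M, g]
  rw [div_eq_iff (by positivity)]
  constructor <;> intro h <;> linarith

lemma M_smul (t : ℝ) (ht : t ≠ 0) (x : X) : t • x ∈ M ↔ x ∈ M := by
  simp only [M, Set.mem_setOf_eq, Pi.smul_apply, smul_eq_mul]
  constructor <;> intro h
  · exact mul_left_cancel₀ (pow_ne_zero 3 ht) (by linarith)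
  · linear_combination t ^ 3 * h

lemma tangent {φ : X → X} {D : X →L[ℝ] X} {p : X} (hφ : HasFDerivAt φ D p) (S : Set X)
    (hS : IsClosed S) (hs : ∀ t : ℝ, t ≠ 0 → ∀ x ∈ S, t • x ∈ S) (v : X)
    (h : ∀ᶠ t : ℝ in 𝓝 0, φ (p + t • v) - φ p ∈ S) : D v ∈ S := by
  have h1 : HasDerivAt (fun t : ℝ => φ (p + t • v)) (D v) 0 := by
    have hl : HasDerivAt (fun t : ℝ => p + t • v) v 0 := by
      simpa using ((hasDerivAt_id' (0 : ℝ)).smul_const v).const_add p
    exact HasFDerivAt.comp_hasDerivAt (l := φ) (f := fun t : ℝ => p + t • v) 0 (by rwa [zero_smul, add_zero]) hl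
  refine hS.mem_of_tendsto (hasDerivAt_iff_tendsto_slope_zero.1 h1) ?_
  filter_upwards [self_mem_nhdsWithin, mem_nhdsWithin_of_mem_nhds h] with t ht h2
  simpa using hs t⁻¹ (inv_ne_zero ht) _ h2

lemma not_C1 : ¬ C1At M 0 := by
  rintro ⟨ψ, k, h0, hψ, hψ', hM⟩
  set W : Set X := {x | ∀ i : Fin 3, k ≤ i.val → x i = 0} with hW
  have hWc : IsClosed W := by
    simp only [hW, Set.setOf_forall]
    exact isClosed_iInter fun i => isClosed_iInter fun _ => isClosed_eq (by fun_prop) (by fun_prop)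
  have hMc : IsClosed M := isClosed_eq (by fun_prop) (by fun_prop)
  have hM0 : (0 : X) ∈ M := by simp [M]
  have ht0 := ψ.map_source h0
  have d1 := ((hψ.contDiffAt (ψ.open_source.mem_nhds h0)).differentiableAt one_ne_zero).hasFDerivAt
  have d2 := ((hψ'.contDiffAt (ψ.open_target.mem_nhds ht0)).differentiableAt
    one_ne_zero).hasFDerivAt
  set D := fderiv ℝ ψ 0
  set D' := fderiv ℝ ψ.symm (ψ 0)
  have hDD : ∀ v, D' (D v) = v := by
    intro v
    have h1 := (d2.comp 0 d1).congr_of_eventuallyEq (ψ.eventually_left_inverse h0 |>.mono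
      fun x hx => (show id x = (ψ.symm ∘ ψ) x from hx.symm))
    have := h1.unique (hasFDerivAt_id 0)
    exact congrArg (fun L : X →L[ℝ] X => L v) this
  have hin : ∀ x ∈ ψ.source, x ∈ M → ψ x ∈ W := fun x h1 h2 =>
    (hM ▸ Set.mem_image_of_mem ψ ⟨h1, h2⟩ : ψ x ∈ ψ.target ∩ W).2
  have hA : ∀ v ∈ M, D v ∈ W := by
    intro v hv
    refine tangent d1 W hWc (fun t _ x hx i hi => by simp [hx i hi]) v ?_
    have : ∀ᶠ t : ℝ in 𝓝 0, (0 : X) + t • v ∈ ψ.source := by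
      refine ContinuousAt.eventually_mem (by fun_prop) ?_
      simpa using ψ.open_source.mem_nhds h0
    filter_upwards [this] with t ht i hi
    have h2 : (0 : X) + t • v ∈ M := by
      rcases eq_or_ne t 0 with rfl | h
      · simpa using hM0
      · simpa using (M_smul t h v).2 hv
    simp only [Pi.sub_apply, hin _ ht h2 i hi, hin _ h0 hM0 i hi, sub_zero]
  have hB : ∀ w ∈ W, D' w ∈ M := by
    intro w hw
    refine tangent d2 M hMc (fun t ht x hx => (M_smul t ht x).2 hx) w ?_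
    have : ∀ᶠ t : ℝ in 𝓝 0, ψ 0 + t • w ∈ ψ.target := by
      refine ContinuousAt.eventually_mem (by fun_prop) ?_
      simpa using ψ.open_target.mem_nhds ht0
    filter_upwards [this] with t ht
    have h2 : ψ 0 + t • w ∈ ψ '' (ψ.source ∩ M) := by
      rw [hM]
      exact ⟨ht, fun i hi => by simp [hin _ h0 hM0 i hi, hw i hi]⟩
    obtain ⟨x, ⟨hx1, hx2⟩, hx⟩ := h2
    rw [← hx, ψ.left_inv hx1, ψ.left_inv h0, sub_zero]
    exact hx2
  have h1 := hA ![0, 1, 0] (by simp [M])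
  have h2 := hA ![1, 0, 1 / 10] (by simp [M]; norm_num)
  have h3 := hB (D ![0, 1, 0] + D ![1, 0, 1 / 10]) fun i hi => by
    rw [Pi.add_apply, h1 i hi, h2 i hi, add_zero]
  rw [← map_add, hDD] at h3
  simp [M] at h3
  norm_num at h3

theorem result : ∃ (n : ℕ) (f : (Fin n → ℝ) → (Fin n → ℝ)),
    (∀ x y, ‖f x - f y‖ ≤ ‖x - y‖) ∧ AnalyticOnNhd ℝ f Set.univ ∧
    ∃ p, f p = p ∧ ¬ C1At {x | f x = x} p := by
  refine ⟨3, f, fun x y => ?_, ?_, 0, ?_, fix_eq ▸ not_C1⟩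
  · refine (pi_norm_le_iff_of_nonneg (norm_nonneg _)).2 fun i => ?_
    fin_cases i
    · exact norm_le_pi_norm (x - y) 0
    · exact norm_le_pi_norm (x - y) 1
    · exact g_lip x y
  · intro x _
    have hp : ∀ i, AnalyticAt ℝ (fun y : X => y i) x := fun i =>
      (ContinuousLinearMap.proj (R := ℝ) (φ := fun _ : Fin 3 => ℝ) i).analyticAt x
    refine analyticAt_pi_iff.2 fun i => ?_
    fin_cases i
    · exact hp 0
    · exact hp 1
    · refine AnalyticAt.fun_div ((hp 2).add (analyticAt_const.mul ((hp 0).pow 3)))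
        (analyticAt_const.add ((((hp 0).pow 2).add ((hp 1).pow 2)).add
          (analyticAt_const.mul ((hp 2).pow 2)))) ?_
      show (1 : ℝ) + (x 0 ^ 2 + x 1 ^ 2 + 2 * x 2 ^ 2) ≠ 0
      positivity
  · have : (0 : X) ∈ {x | f x = x} := by rw [fix_eq]; simp [M]
    exact this

end Pool.Agent.Results.MP_8dfbdc_an.Cone
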